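import Pool.Agent.Helper96.ME.Defs

/-!
# MP_bde085_nt, block E, module BWD: solutions of the relations are symbols of potentials
-/

set_option autoImplicit false

namespace Pool.Agent.Helper96.ME

open Pool.Agent.Helper96.MP
open scoped MatrixGroups

/-- entries of a product -/
theorem bwd_mul (g h : SL(2, ℤ)) (i j : Fin 2) : (g * h) i j = g i 0 * h 0 j + g i 1 * h 1 j := by
  rw [Matrix.SpecialLinearGroup.coe_mul, Matrix.mul_apply, Fin.sum_univ_two]

/-- the determinant -/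
theorem bwd_det (y : SL(2, ℤ)) : y 0 0 * y 1 1 - y 0 1 * y 1 0 = 1 := by
  have := y.2
  rwa [Matrix.det_fin_two] at this

/-- matrices from entries -/
theorem bwd_mk (p x q y : ℤ) (h : p * y - x * q = 1) :
    ∃ g : SL(2, ℤ), g 0 0 = p ∧ g 0 1 = x ∧ g 1 0 = q ∧ g 1 1 = y :=
  ⟨⟨!![p, x; q, y], by rw [Matrix.det_fin_two_of]; exact h⟩, rfl, rfl, rfl, rfl⟩

/-- a homogeneous function with vanishing differences is constant -/
theorem bwd_const (hCONN : ST_CONN) (E : ℤ → ℤ → ℝ) (hE : Hom0 E)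
    (h : ∀ y : SL(2, ℤ), E (y 0 0) (y 1 0) = E (y 0 1) (y 1 1)) :
    ∀ p q : ℤ, (p ≠ 0 ∨ q ≠ 0) → E p q = E 1 0 := by
  intro p q hpq
  have := hCONN ℝ ⊥ E hE (by
    intro p x q y hd
    obtain ⟨g, h1, h2, h3, h4⟩ := bwd_mk p x q y hd
    have := h g
    rw [h1, h2, h3, h4] at this
    rw [this, sub_self]
    exact AddSubgroup.zero_mem _) p q hpq
  rw [AddSubgroup.mem_bot] at this
  linarith

/-- classes of products -/
theorem bwd_cls {Q : ℕ} (γ y : SL(2, ℤ)) (h : (Q : ℤ) ∣ γ 1 0) : cls Q (γ * y) = cls Q y := by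
  symm
  apply Quotient.sound
  change eqv Q (y 1 0) (y 1 1) ((γ * y) 1 0) ((γ * y) 1 1)
  obtain ⟨k, hk⟩ := h
  refine ⟨γ 1 1, ⟨γ 0 0, -(γ 0 1 * k), ?_⟩, ⟨k * y 0 0, ?_⟩, ⟨k * y 0 1, ?_⟩⟩
  · have := bwd_det γ
    rw [hk] at this
    linear_combination this
  · rw [bwd_mul, hk]; ring
  · rw [bwd_mul, hk]; ring

/-- diagonal reductions -/
theorem bwd_rd {M : ℕ} (γ : SL(2, ℤ)) (h1 : (M : ℤ) ∣ γ 0 1) (h2 : (M : ℤ) ∣ γ 1 0) :
    ∃ u : (ZMod M)ˣ, rd M γ = dg u := by
  have hz1 : ((γ 0 1 : ℤ) : ZMod M) = 0 := (ZMod.intCast_zmod_eq_zero_iff_dvd _ _).mpr (by exact_mod_cast h1)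
  have hz2 : ((γ 1 0 : ℤ) : ZMod M) = 0 := (ZMod.intCast_zmod_eq_zero_iff_dvd _ _).mpr (by exact_mod_cast h2)
  have hd : ((γ 0 0 : ℤ) : ZMod M) * ((γ 1 1 : ℤ) : ZMod M) = 1 := by
    have := congrArg (fun z : ℤ => (z : ZMod M)) (bwd_det γ)
    simp only [Int.cast_sub, Int.cast_mul, Int.cast_one, hz1, zero_mul, sub_zero] at this
    exact this
  refine ⟨⟨((γ 0 0 : ℤ) : ZMod M), ((γ 1 1 : ℤ) : ZMod M), hd, by rw [mul_comm]; exact hd⟩, ?_⟩
  ext i j
  fin_cases i <;> fin_cases j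
  · rfl
  · exact hz1
  · exact hz2
  · rfl

/-- `C` from `w` -/
theorem st_BWD (hF : ST_FARG) (hCONN : ST_CONN) (hT : ST_TILW) (hA : ST_ADX) : ST_BWD := by
  intro M Q a ε w hM hQ hMQ hw
  obtain ⟨C₁, hC1, hW⟩ := hF (fun y => w (rd M y) (cls Q y)) hw.two hw.three
  have hM0 : (M : ℤ) ≠ 0 := by exact_mod_cast (by omega : M ≠ 0)
  -- the potential
  have hhom : Hom0 (fun x y : ℤ => C₁ (M * x) y) := by
    intro k p q hk
    have := hC1 k (M * p) q hk
    change C₁ (M * (k * p)) (k * q) = C₁ (M * p) q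
    rw [← this]
    congr 1
    ring
  have hpw : PW M Q (fun x y : ℤ => C₁ (M * x) y) w := by
    intro y
    change w (rd M y) (cls Q y) = C₁ (M * y 0 0) (M * y 1 0) - C₁ (M * y 0 1) (M * y 1 1)
    rw [hC1 M _ _ hM0, hC1 M _ _ hM0]
    exact hW y
  -- invariance
  have hinv : ∀ γ : SL(2, ℤ), (M : ℤ) ∣ γ 0 1 → (M : ℤ) ∣ γ 1 0 → (Q : ℤ) ∣ γ 1 0 →
      ∀ p q : ℤ, (p ≠ 0 ∨ q ≠ 0) →
      C₁ (γ 0 0 * p + γ 0 1 * q) (γ 1 0 * p + γ 1 1 * q) = C₁ p q + (C₁ (γ 0 0) (γ 1 0) - C₁ 1 0) := by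
    intro γ h1 h2 h3 p q hpq
    have := bwd_const hCONN (fun p q => C₁ (γ 0 0 * p + γ 0 1 * q) (γ 1 0 * p + γ 1 1 * q) - C₁ p q)
      (by
        intro k p q hk
        change C₁ (γ 0 0 * (k * p) + γ 0 1 * (k * q)) (γ 1 0 * (k * p) + γ 1 1 * (k * q)) -
          C₁ (k * p) (k * q) = C₁ (γ 0 0 * p + γ 0 1 * q) (γ 1 0 * p + γ 1 1 * q) - C₁ p q
        rw [hC1 k p q hk, ← hC1 k (γ 0 0 * p + γ 0 1 * q) (γ 1 0 * p + γ 1 1 * q) hk]
        congr 2 <;> ring)
      (by
        intro y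
        have e1 := hW (γ * y)
        have e2 := hW y
        obtain ⟨u, hu⟩ := bwd_rd γ h1 h2
        have e3 : rd M (γ * y) = dg u * rd M y := by
          rw [← hu]; exact map_mul _ _ _
        rw [bwd_cls γ y h3, e3, hw.left, e2] at e1
        simp only [bwd_mul] at e1
        change C₁ (γ 0 0 * y 0 0 + γ 0 1 * y 1 0) (γ 1 0 * y 0 0 + γ 1 1 * y 1 0) - C₁ (y 0 0) (y 1 0) =
          C₁ (γ 0 0 * y 0 1 + γ 0 1 * y 1 1) (γ 1 0 * y 0 1 + γ 1 1 * y 1 1) - C₁ (y 0 1) (y 1 1)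
        linarith) p q hpq
    simp only [mul_one, mul_zero, add_zero] at this
    linarith
  have heq : EqC (Q * M ^ 2) (fun x y : ℤ => C₁ (M * x) y) := by
    intro p q r s hG x y hxy
    obtain ⟨hd, k, hk⟩ := hG
    have hk' : r = M * (Q * M * k) := by
      rw [hk]; push_cast; ring
    obtain ⟨γ, h00, h01, h10, h11⟩ := bwd_mk p (M * q) (Q * M * k) s (by
      rw [hk'] at hd; linear_combination hd)
    have := hinv γ (by rw [h01]; exact dvd_mul_right _ _)
      (by rw [h10]; exact ⟨Q * k, by ring⟩) (by rw [h10]; exact ⟨M * k, by ring⟩) (M * x) y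
      (by
        rcases hxy with h | h
        · exact Or.inl (mul_ne_zero hM0 h)
        · exact Or.inr h)
    rw [h00, h01, h10, h11] at this
    change C₁ (M * (p * x + q * y)) (r * x + s * y) = C₁ (M * x) y + (C₁ (M * p) r - C₁ (M * 1) 0)
    have e1 : C₁ (M * p) r = C₁ p (Q * M * k) := by
      rw [hk']; exact hC1 M _ _ hM0
    have e2 : C₁ (M * 1) 0 = C₁ 1 0 := by
      have := hC1 M 1 0 hM0
      rwa [mul_zero] at this
    rw [e1, e2, ← this]
    congr 1
    · ring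
    · rw [hk']; ring
  refine ⟨fun x y : ℤ => C₁ (M * x) y, ⟨hhom, heq, ?_, ?_⟩, hpw⟩
  · -- sign
    refine ⟨C₁ (-1) 0 - ε * C₁ 1 0, fun x y hxy => ?_⟩
    have := bwd_const hCONN (fun p q => C₁ (-p) q - ε * C₁ p q)
      (by
        intro k p q hk
        change C₁ (-(k * p)) (k * q) - ε * C₁ (k * p) (k * q) = C₁ (-p) q - ε * C₁ p q
        rw [hC1 k p q hk, ← hC1 k (-p) q hk]
        congr 2
        ring)
      (by
        intro y
        have e1 := hW (cj y)
        have e2 := hW y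
        rw [hw.sign, e2] at e1
        have c00 : (cj y) 0 0 = y 0 0 := rfl
        have c01 : (cj y) 0 1 = -y 0 1 := rfl
        have c10 : (cj y) 1 0 = -y 1 0 := rfl
        have c11 : (cj y) 1 1 = y 1 1 := rfl
        rw [c00, c01, c10, c11] at e1
        have e3 := hC1 (-1) (-y 0 0) (y 1 0) (by norm_num)
        rw [neg_one_mul, neg_one_mul, neg_neg] at e3
        change C₁ (-y 0 0) (y 1 0) - ε * C₁ (y 0 0) (y 1 0) = C₁ (-y 0 1) (y 1 1) - ε * C₁ (y 0 1) (y 1 1)
        rw [e3] at e1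
        linarith) (M * x) y
      (by
        rcases hxy with h | h
        · exact Or.inl (mul_ne_zero hM0 h)
        · exact Or.inr h)
    change C₁ (M * (-x)) y = ε * C₁ (M * x) y + _
    rw [mul_neg]
    linarith
  · -- Hecke operators
    intro l hl hlN hlb
    have key : ∀ (n : ℕ) (α : ℝ), 1 ≤ n → Nat.Coprime n (Q * M ^ 2) → HW M Q n α w →
        HC n α (fun x y : ℤ => C₁ (M * x) y) := by
      intro n α hn hco hHW
      have hE := bwd_const hCONN (fun p q => ∑ t ∈ Tn n,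
          C₁ (M * (t.1 * p + t.2.1 * (M * q))) (t.2.2 * (M * q)) - α * C₁ (M * p) (M * q))
        (by
          intro k p q hk
          change ∑ t ∈ Tn n, C₁ (M * (t.1 * (k * p) + t.2.1 * (M * (k * q)))) (t.2.2 * (M * (k * q))) -
            α * C₁ (M * (k * p)) (M * (k * q)) = ∑ t ∈ Tn n,
            C₁ (M * (t.1 * p + t.2.1 * (M * q))) (t.2.2 * (M * q)) - α * C₁ (M * p) (M * q)
          have e1 : C₁ (M * (k * p)) (M * (k * q)) = C₁ (M * p) (M * q) := by
            rw [← hC1 k (M * p) (M * q) hk]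
            congr 1 <;> ring
          rw [e1]
          congr 1
          apply Finset.sum_congr rfl
          intro t _
          rw [← hC1 k (M * (t.1 * p + t.2.1 * (M * q))) (t.2.2 * (M * q)) hk]
          congr 1 <;> ring)
        (by
          intro y
          have hex : ∀ m ∈ Sn n, ∃ Y : SL(2, ℤ), Adp M Q n Y (y 0 0 * m.1 + y 0 1 * m.2.2.1)
              (y 0 0 * m.2.1 + y 0 1 * m.2.2.2) (y 1 0 * m.1 + y 1 1 * m.2.2.1)
              (y 1 0 * m.2.1 + y 1 1 * m.2.2.2) := by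
            intro m hm
            have hm2 : m.1 * m.2.2.2 = n + m.2.1 * m.2.2.1 := by
              have := (Finset.mem_filter.mp hm).2
              exact this.2.2
            have hm3 : (m.1 : ℤ) * m.2.2.2 = n + m.2.1 * m.2.2.1 := by exact_mod_cast hm2
            refine (hA M Q n hM hQ hMQ hn hco _ _ _ _ ?_).1
            have hd := bwd_det y
            linear_combination ((m.1 : ℤ) * m.2.2.2 - m.2.1 * m.2.2.1) * hd + hm3
          classical
          let F : ℕ × ℕ × ℕ × ℕ → SL(2, ℤ) := fun m => if h : m ∈ Sn n then Classical.choose (hex m h) else 1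
          have hF : AdF M Q n y F := by
            intro m hm
            have : F m = Classical.choose (hex m hm) := dif_pos hm
            rw [this]
            exact Classical.choose_spec (hex m hm)
          have e1 := hHW y F hF
          have e2 := hT M Q n (fun x y : ℤ => C₁ (M * x) y) w hM hQ hMQ hn hco hhom heq hpw y F hF
          rw [e1, hpw y, Finset.sum_sub_distrib] at e2
          simp only at e2
          linarith)
      refine ⟨∑ t ∈ Tn n, C₁ (M * (t.1 * 1 + t.2.1 * (M * 0))) (t.2.2 * (M * 0)) -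
        α * C₁ (M * 1) (M * 0), fun x y hxy => ?_⟩
      have := hE (M * x) y
        (by
          rcases hxy with h | h
          · exact Or.inl (mul_ne_zero hM0 h)
          · exact Or.inr h)
      change ∑ t ∈ Tn n, C₁ (M * (t.1 * x + t.2.1 * y)) (t.2.2 * y) = α * C₁ (M * x) y + _
      have e1 : ∑ t ∈ Tn n, C₁ (M * (t.1 * (M * x) + t.2.1 * (M * y))) (t.2.2 * (M * y)) =
          ∑ t ∈ Tn n, C₁ (M * (t.1 * x + t.2.1 * y)) (t.2.2 * y) := by
        apply Finset.sum_congr rfl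
        intro t _
        rw [← hC1 M (M * (t.1 * x + t.2.1 * y)) (t.2.2 * y) hM0]
        congr 1 <;> ring
      have e2 : C₁ (M * (M * x)) (M * y) = C₁ (M * x) y := hC1 M _ _ hM0
      rw [e1, e2] at this
      linarith
    obtain ⟨h1, h2⟩ := hw.hecke l hl hlN hlb
    have hco : Nat.Coprime l (Q * M ^ 2) := (Nat.Prime.coprime_iff_not_dvd hl).mpr hlN
    exact ⟨key l (a l) hl.one_le hco h1, key (l ^ 2) _ (Nat.one_le_pow _ _ hl.pos)
      (Nat.Coprime.pow_left 2 hco) h2⟩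

end Pool.Agent.Helper96.ME
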